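import Mathlib
import Pool.Agent.Q74.Diff.Rec

/-!
# Unbounded solutions of `x (n+1) = (α + x n) / x (n-2)`

With `y = log x` the equation reads `y (n+3) = log (α + e ^ y (n+2)) - y n`, and
`log (α + e ^ v) = max v 0 + O(1)`.  A return section is exhibited on which the quantity
`-(y n + y (n+1) + y (n+2))` grows at least geometrically.
-/

set_option autoImplicit false

namespace Pool.Agent.Results.MP_f66a6a_an.Unbounded

open Pool.Agent.Q74.Diff Real

/-- one return to the section -/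
theorem step {c : ℝ} (hc : 1 ≤ c) (L : ℝ → ℝ) (hL1 : ∀ v, v - c ≤ L v) (hL2 : ∀ v, -c ≤ L v)
    (hL3 : ∀ v, 0 ≤ v → L v ≤ v + c) (hL4 : ∀ v, v ≤ 0 → L v ≤ c) (y : ℕ → ℝ)
    (hy : ∀ n, y (n + 3) = L (y (n + 2)) - y n) (n : ℕ)
    (h0 : y n ≤ 0) (h2 : y (n + 2) ≤ c) (h1 : 3 * y (n + 1) ≤ y n + y (n + 1) + y (n + 2))
    (hS : y n + y (n + 1) + y (n + 2) ≤ -(200 * c)) :
    (∃ m, y m ≤ 0 ∧ y (m + 2) ≤ c ∧ 3 * y (m + 1) ≤ y m + y (m + 1) + y (m + 2) ∧
      y m + y (m + 1) + y (m + 2) ≤ y n + y (n + 1) + y (n + 2) - 1) ∧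
    -(y n + y (n + 1) + y (n + 2)) - 3 * c ≤ y (n + 5) := by
  have e3 := hy n
  have e4 : y (n + 4) = L (y (n + 3)) - y (n + 1) := hy (n + 1)
  have e5 : y (n + 5) = L (y (n + 4)) - y (n + 2) := hy (n + 2)
  have e6 : y (n + 6) = L (y (n + 5)) - y (n + 3) := hy (n + 3)
  have e7 : y (n + 7) = L (y (n + 6)) - y (n + 4) := hy (n + 4)
  have e8 : y (n + 8) = L (y (n + 7)) - y (n + 5) := hy (n + 5)
  have e9 : y (n + 9) = L (y (n + 8)) - y (n + 6) := hy (n + 6)
  have e10 : y (n + 10) = L (y (n + 9)) - y (n + 7) := hy (n + 7)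
  -- y3
  have u2 : L (y (n + 2)) ≤ 2 * c := by
    rcases le_total 0 (y (n + 2)) with h | h
    · linarith [hL3 _ h]
    · linarith [hL4 _ h]
  have l2 := hL2 (y (n + 2))
  -- y4
  have u3 : L (y (n + 3)) ≤ -y n + 3 * c := by
    rcases le_total 0 (y (n + 3)) with h | h
    · linarith [hL3 _ h]
    · linarith [hL4 _ h]
  have l3 := hL1 (y (n + 3))
  -- y5
  have p4 : 0 ≤ y (n + 4) := by linarith
  have u4 := hL3 _ p4
  have l4 := hL1 (y (n + 4))
  have p5 : 0 ≤ y (n + 5) := by linarith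
  have u5 := hL3 _ p5
  have l5 := hL1 (y (n + 5))
  have p6 : 0 ≤ y (n + 6) := by linarith
  have u6 := hL3 _ p6
  have l6 := hL1 (y (n + 6))
  refine ⟨?_, by linarith⟩
  rcases le_total 0 (y (n + 7)) with h7 | h7
  · have u7 := hL3 _ h7
    have l7 := hL1 (y (n + 7))
    have p8 : y (n + 8) ≤ 0 := by linarith
    have u8 := hL4 _ p8
    have l8 := hL2 (y (n + 8))
    have p9 : y (n + 9) ≤ 0 := by linarith
    have u9 := hL4 _ p9
    have l9 := hL2 (y (n + 9))
    refine ⟨n + 8, p8, ?_, ?_, ?_⟩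
    · show y (n + 10) ≤ c
      linarith
    · show 3 * y (n + 9) ≤ y (n + 8) + y (n + 9) + y (n + 10)
      linarith
    · show y (n + 8) + y (n + 9) + y (n + 10) ≤ _
      linarith
  · have u7 := hL4 _ h7
    have l7 := hL2 (y (n + 7))
    have p8 : y (n + 8) ≤ 0 := by linarith
    have u8 := hL4 _ p8
    have l8 := hL2 (y (n + 8))
    refine ⟨n + 7, h7, ?_, ?_, ?_⟩
    · show y (n + 9) ≤ c
      linarith
    · show 3 * y (n + 8) ≤ y (n + 7) + y (n + 8) + y (n + 9)
      linarith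
    · show y (n + 7) + y (n + 8) + y (n + 9) ≤ _
      linarith

/-- For every `α > 0` the recursion has an unbounded positive solution (`x n` is the term of index
`n - 2`). -/
theorem result (α : ℝ) (hα : 0 < α) :
    ∃ x : ℕ → ℝ, (∀ n, 0 < x n) ∧ (∀ n, x (n + 3) = (α + x (n + 2)) / x n) ∧
      ¬ BddAbove (Set.range x) := by
  set c : ℝ := |log α| + 1 with hcdef
  have hc : 1 ≤ c := by linarith [abs_nonneg (log α)]
  obtain ⟨x, hx0, hx1, hx2, hx⟩ :=
    exists_seq (fun a _ b => (α + b) / a) 1 (exp (-(200 * c))) 1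
  have hpos : ∀ n, 0 < x n := by
    apply pos_of_rec
    · rw [hx0]; positivity
    · rw [hx1]; positivity
    · rw [hx2]; positivity
    · intro n a b c
      rw [hx]
      positivity
  refine ⟨x, hpos, hx, ?_⟩
  set L : ℝ → ℝ := fun v => log (α + exp v) with hL
  have hLb : ∀ v, max 0 v - c ≤ L v ∧ L v ≤ max 0 v + c := by
    intro v
    have := log_add_bounds hα 0 v
    simpa [exp_zero, hL] using this
  have hL1 : ∀ v, v - c ≤ L v := fun v => by linarith [(hLb v).1, le_max_right 0 v]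
  have hL2 : ∀ v, -c ≤ L v := fun v => by linarith [(hLb v).1, le_max_left 0 v]
  have hL3 : ∀ v, 0 ≤ v → L v ≤ v + c := fun v hv => by
    have := (hLb v).2
    rwa [max_eq_right hv] at this
  have hL4 : ∀ v, v ≤ 0 → L v ≤ c := fun v hv => by
    have := (hLb v).2
    rw [max_eq_left hv] at this
    linarith
  set y : ℕ → ℝ := fun n => log (x n) with hydef
  have hy : ∀ n, y (n + 3) = L (y (n + 2)) - y n := by
    intro n
    have h2 := hpos (n + 2)
    simp only [hydef, hL]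
    rw [hx n, log_div (by positivity) (hpos n).ne', exp_log h2]
  have key : ∀ k : ℕ, ∃ m, y m ≤ 0 ∧ y (m + 2) ≤ c ∧
      3 * y (m + 1) ≤ y m + y (m + 1) + y (m + 2) ∧
      y m + y (m + 1) + y (m + 2) ≤ -(200 * c) - k := by
    intro k
    induction k with
    | zero =>
      refine ⟨0, ?_⟩
      have y0 : y 0 = 0 := by simp only [hydef, hx0, log_one]
      have y1 : y (0 + 1) = -(200 * c) := by simp only [hydef, Nat.zero_add, hx1, log_exp]
      have y2 : y (0 + 2) = 0 := by simp only [hydef, Nat.zero_add, hx2, log_one]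
      rw [y0, y1, y2]
      push_cast
      refine ⟨le_rfl, ?_, ?_, ?_⟩ <;> linarith
    | succ k ih =>
      obtain ⟨m, h0, h2, h1, hS⟩ := ih
      have hk : (0 : ℝ) ≤ k := k.cast_nonneg
      obtain ⟨⟨m', g0, g2, g1, gS⟩, -⟩ :=
        step hc L hL1 hL2 hL3 hL4 y hy m h0 h2 h1 (by linarith)
      refine ⟨m', g0, g2, g1, ?_⟩
      push_cast
      linarith
  rintro ⟨B, hB⟩
  obtain ⟨k, hk⟩ := exists_nat_gt B
  obtain ⟨m, h0, h2, h1, hS⟩ := key k
  have hk0 : (0 : ℝ) ≤ k := k.cast_nonneg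
  have h5 := (step hc L hL1 hL2 hL3 hL4 y hy m h0 h2 h1 (by linarith)).2
  have h6 : x (m + 5) ≤ B := hB ⟨_, rfl⟩
  have h7 : y (m + 5) ≤ x (m + 5) := by
    have := log_le_sub_one_of_pos (hpos (m + 5))
    simp only [hydef]
    linarith
  linarith

end Pool.Agent.Results.MP_f66a6a_an.Unbounded
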